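import Pool.Agent.W79.ST.Defs

/-!
Project ST: basic facts on orbits, stabilisers and components.
-/

set_option autoImplicit false

namespace Pool.Agent.W79.ST

open scoped Classical

variable {V : Type}

theorem mem_aut {G : SimpleGraph V} {σ : Equiv.Perm V} :
    σ ∈ aut G ↔ ∀ u v, G.Adj (σ u) (σ v) ↔ G.Adj u v := Iff.rfl

theorem mem_stb {D : Subgroup (Equiv.Perm V)} {v : V} {σ : Equiv.Perm V} :
    σ ∈ stb D v ↔ σ ∈ D ∧ σ v = v := by
  simp [stb, Subgroup.mem_inf, MulAction.mem_stabilizer_iff]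

theorem stb_le (D : Subgroup (Equiv.Perm V)) (v : V) : stb D v ≤ D := inf_le_left

theorem mem_orb_self (D : Subgroup (Equiv.Perm V)) (v : V) : v ∈ orb D v := ⟨1, D.one_mem, rfl⟩

theorem mem_orb_apply {D : Subgroup (Equiv.Perm V)} {σ : Equiv.Perm V} (h : σ ∈ D) (v : V) :
    σ v ∈ orb D v := ⟨σ, h, rfl⟩

theorem orb_eq_of_mem {D : Subgroup (Equiv.Perm V)} {v x : V} (h : x ∈ orb D v) :
    orb D x = orb D v := by
  obtain ⟨σ, hσ, rfl⟩ := h
  ext y
  constructor
  · rintro ⟨τ, hτ, rfl⟩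
    exact ⟨τ * σ, D.mul_mem hτ hσ, rfl⟩
  · rintro ⟨τ, hτ, rfl⟩
    refine ⟨τ * σ⁻¹, D.mul_mem hτ (D.inv_mem hσ), ?_⟩
    rw [Equiv.Perm.mul_apply]
    congr 1
    exact σ.symm_apply_apply v

theorem orb_apply {D : Subgroup (Equiv.Perm V)} {σ : Equiv.Perm V} (h : σ ∈ D) (v : V) :
    orb D (σ v) = orb D v := orb_eq_of_mem (mem_orb_apply h v)

theorem os_apply {D : Subgroup (Equiv.Perm V)} {σ : Equiv.Perm V} (h : σ ∈ D) (v : V) :
    os D (σ v) = os D v := by
  unfold os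
  rw [orb_apply h]

theorem os_eq_of_mem {D : Subgroup (Equiv.Perm V)} {v x : V} (h : x ∈ orb D v) :
    os D x = os D v := by
  unfold os
  rw [orb_eq_of_mem h]

theorem orb_mono {D E : Subgroup (Equiv.Perm V)} (h : D ≤ E) (v : V) : orb D v ⊆ orb E v := by
  rintro x ⟨σ, hσ, rfl⟩
  exact ⟨σ, h hσ, rfl⟩

/-- orbits lie in invariant sets -/
theorem orb_subset {D : Subgroup (Equiv.Perm V)} {P : Set V} (h : ∀ σ ∈ D, ∀ x ∈ P, σ x ∈ P)
    {v : V} (hv : v ∈ P) : orb D v ⊆ P := by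
  rintro x ⟨σ, hσ, rfl⟩
  exact h σ hσ v hv

theorem os_mono [Finite V] {D E : Subgroup (Equiv.Perm V)} (h : D ≤ E) (v : V) :
    os D v ≤ os E v := Set.ncard_le_ncard (orb_mono h v) (Set.toFinite _)

theorem os_le_ncard [Finite V] {D : Subgroup (Equiv.Perm V)} {P : Set V}
    (h : ∀ σ ∈ D, ∀ x ∈ P, σ x ∈ P) {v : V} (hv : v ∈ P) : os D v ≤ P.ncard :=
  Set.ncard_le_ncard (orb_subset h hv) (Set.toFinite _)

theorem os_pos [Finite V] (D : Subgroup (Equiv.Perm V)) (v : V) : 0 < os D v :=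
  (Set.ncard_pos (Set.toFinite _)).2 ⟨v, mem_orb_self D v⟩

theorem os_le_card [Fintype V] (D : Subgroup (Equiv.Perm V)) (v : V) :
    os D v ≤ Fintype.card V := by
  unfold os
  have h := Set.ncard_le_ncard (Set.subset_univ (orb D v)) (Set.toFinite _)
  rwa [Set.ncard_univ, Nat.card_eq_fintype_card] at h

theorem os_le_one_iff [Finite V] (D : Subgroup (Equiv.Perm V)) (v : V) :
    os D v ≤ 1 ↔ ∀ σ ∈ D, σ v = v := by
  constructor
  · intro h σ hσ
    exact (Set.ncard_le_one (Set.toFinite _)).1 h _ (mem_orb_apply hσ v) _ (mem_orb_self D v)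
  · intro h
    refine (Set.ncard_le_one (Set.toFinite _)).2 ?_
    rintro _ ⟨σ, hσ, rfl⟩ _ ⟨τ, hτ, rfl⟩
    rw [h σ hσ, h τ hτ]

theorem two_le_os_iff [Finite V] (D : Subgroup (Equiv.Perm V)) (v : V) :
    2 ≤ os D v ↔ ¬ ∀ σ ∈ D, σ v = v := by
  rw [← os_le_one_iff D v]
  omega

theorem os_stb_self [Finite V] (D : Subgroup (Equiv.Perm V)) (v : V) : os (stb D v) v = 1 := by
  have h1 := os_pos (stb D v) v
  have h2 : os (stb D v) v ≤ 1 := (os_le_one_iff _ _).2 (fun σ hσ => (mem_stb.1 hσ).2)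
  omega

/-- orbit-stabiliser -/
theorem card_eq_os_mul [Finite V] (D : Subgroup (Equiv.Perm V)) (v : V) :
    Nat.card D = os D v * Nat.card (stb D v) := by
  rw [Subgroup.card_eq_card_quotient_mul_card_subgroup (MulAction.stabilizer D v),
    ← Nat.card_congr (MulAction.orbitEquivQuotientStabilizer D v)]
  have h1 : (MulAction.orbit D v : Set V) = orb D v := by
    ext x
    constructor
    · rintro ⟨⟨σ, hσ⟩, rfl⟩
      exact ⟨σ, hσ, rfl⟩
    · rintro ⟨σ, hσ, rfl⟩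
      exact ⟨⟨σ, hσ⟩, rfl⟩
  rw [h1]
  congr 1
  refine Nat.card_congr ⟨fun x => ⟨x.1.1, mem_stb.2 ⟨x.1.2, x.2⟩⟩,
    fun x => ⟨⟨x.1, (mem_stb.1 x.2).1⟩, (mem_stb.1 x.2).2⟩, fun x => rfl, fun x => rfl⟩

theorem mem_comp_self (G : SimpleGraph V) (D : Subgroup (Equiv.Perm V)) (u : V) :
    u ∈ comp G D u := Relation.ReflTransGen.refl

theorem comp_trans {G : SimpleGraph V} {D : Subgroup (Equiv.Perm V)} {u v w : V}
    (h1 : v ∈ comp G D u) (h2 : w ∈ comp G D v) : w ∈ comp G D u :=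
  Relation.ReflTransGen.trans h1 h2

theorem comp_symm {G : SimpleGraph V} {D : Subgroup (Equiv.Perm V)}
    (hs : ∀ u x, Dif G D u x → Dif G D x u) {u v : V} (h : v ∈ comp G D u) : u ∈ comp G D v := by
  have key : ∀ v, v ∈ comp G D u → u ∈ comp G D v := by
    intro v h
    induction h with
    | refl => exact Relation.ReflTransGen.refl
    | tail _ h1 ih => exact Relation.ReflTransGen.head (hs _ _ h1) ih
  exact key v h

theorem comp_eq {G : SimpleGraph V} {D : Subgroup (Equiv.Perm V)}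
    (hs : ∀ u x, Dif G D u x → Dif G D x u) {u v : V} (h : v ∈ comp G D u) :
    comp G D v = comp G D u := by
  ext w
  exact ⟨fun h1 => comp_trans h h1, fun h1 => comp_trans (comp_symm hs h) h1⟩

theorem comp_apply {G : SimpleGraph V} {D : Subgroup (Equiv.Perm V)}
    (hi : ∀ σ ∈ D, ∀ u x, Dif G D (σ u) (σ x) ↔ Dif G D u x) {σ : Equiv.Perm V} (hσ : σ ∈ D)
    (u v : V) : σ v ∈ comp G D (σ u) ↔ v ∈ comp G D u := by
  have key : ∀ τ ∈ D, ∀ u v : V, v ∈ comp G D u → τ v ∈ comp G D (τ u) := by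
    intro τ hτ u v h
    induction h with
    | refl => exact Relation.ReflTransGen.refl
    | tail _ h1 ih => exact Relation.ReflTransGen.tail ih ((hi τ hτ _ _).2 h1)
  refine ⟨fun h => ?_, key σ hσ u v⟩
  have h1 := key σ⁻¹ (D.inv_mem hσ) _ _ h
  have h2 : ∀ x, σ⁻¹ (σ x) = x := fun x => σ.symm_apply_apply x
  rwa [h2, h2] at h1

/-- a fixed vertex is alone in its component -/
theorem comp_fixed {G : SimpleGraph V} {D : Subgroup (Equiv.Perm V)}
    (hf : ∀ u x, (∀ δ ∈ D, δ u = u) → ¬ Dif G D u x) {u : V} (hu : ∀ δ ∈ D, δ u = u) :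
    comp G D u = {u} := by
  ext v
  constructor
  · intro h
    rcases Relation.ReflTransGen.cases_head h with h1 | ⟨w, h1, _⟩
    · exact h1.symm
    · exact absurd h1 (hf u w hu)
  · rintro rfl
    exact Relation.ReflTransGen.refl

/-- the points of the component of a non-fixed vertex are not fixed -/
theorem two_le_os_of_mem_comp [Finite V] {G : SimpleGraph V} {D : Subgroup (Equiv.Perm V)}
    (hs : ∀ u x, Dif G D u x → Dif G D x u)
    (hf : ∀ u x, (∀ δ ∈ D, δ u = u) → ¬ Dif G D u x) {u v : V} (hu : 2 ≤ os D u)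
    (hv : v ∈ comp G D u) : 2 ≤ os D v := by
  rw [two_le_os_iff] at hu ⊢
  intro h
  have h1 := comp_symm hs hv
  rw [comp_fixed hf h] at h1
  rw [Set.mem_singleton_iff] at h1
  rw [h1] at hu
  exact hu h

/-- distinct vertices in different components are adjacent as in the base -/
theorem adj_iff_base {G : SimpleGraph V} {D : Subgroup (Equiv.Perm V)} {u x : V}
    (hne : u ≠ x) (h : x ∉ comp G D u) : G.Adj u x ↔ base G D u x := by
  by_contra h1
  exact h (Relation.ReflTransGen.single ⟨hne, h1⟩)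

end Pool.Agent.W79.ST
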