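import Mathlib

/-!
Project ST (MP_debc19_co, small hereditary classes are tiny): definitions and statements.
-/

set_option autoImplicit false

namespace Pool.Agent.W79.ST

open scoped Classical

/-! ### Groups of permutations: orbits and stabilisers -/

/-- automorphisms of a graph, as a subgroup of the symmetric group -/
def aut {V : Type} (G : SimpleGraph V) : Subgroup (Equiv.Perm V) where
  carrier := {σ | ∀ u v, G.Adj (σ u) (σ v) ↔ G.Adj u v}
  mul_mem' := by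
    intro a b ha hb u v
    rw [Equiv.Perm.mul_apply, Equiv.Perm.mul_apply, ha, hb]
  one_mem' := fun u v => Iff.rfl
  inv_mem' := by
    intro a ha u v
    have h := ha (a⁻¹ u) (a⁻¹ v)
    have h1 : ∀ x, a (a⁻¹ x) = x := fun x => a.apply_symm_apply x
    rw [h1, h1] at h
    exact h.symm

/-- the orbit of `v` under `D` -/
def orb {V : Type} (D : Subgroup (Equiv.Perm V)) (v : V) : Set V := {x | ∃ σ ∈ D, σ v = x}

/-- the size of the orbit -/
noncomputable def os {V : Type} (D : Subgroup (Equiv.Perm V)) (v : V) : ℕ := (orb D v).ncard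

/-- the stabiliser of `v` in `D` -/
def stb {V : Type} (D : Subgroup (Equiv.Perm V)) (v : V) : Subgroup (Equiv.Perm V) :=
  D ⊓ MulAction.stabilizer (Equiv.Perm V) v

/-- the pointwise stabiliser in `C` of the set of fixed points of `D` is contained in `D` -/
def Closed {V : Type} (C D : Subgroup (Equiv.Perm V)) : Prop :=
  ∀ σ ∈ C, (∀ z, (∀ δ ∈ D, δ z = z) → σ z = z) → σ ∈ D

/-! ### The potential -/

/-- thresholds -/
def T (j : ℕ) : ℕ := 2 ^ (2 ^ (j + 4))

/-- bounds for the sizes of blocks -/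
def be (j : ℕ) : ℕ := 2 ^ (2 * j + 6)

/-- the potential of a vertex with an orbit of size `s` -/
noncomputable def psi (N s : ℕ) : ℝ :=
  (if 1 < s then 16 else 0) + ∑ j ∈ Finset.range N,
    (if T j < s then (1 / 2 : ℝ) ^ j + 3 * 2 ^ (j + 4) * (1 / (T j : ℝ) - 1 / (s : ℝ)) else 0)

/-- the potential of a group -/
noncomputable def Psi {V : Type} [Fintype V] (D : Subgroup (Equiv.Perm V)) : ℝ :=
  ∑ v : V, psi (Fintype.card V) (os D v)

/-- no vertex is worth naming -/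
def Term {V : Type} [Fintype V] (D : Subgroup (Equiv.Perm V)) : Prop :=
  ∀ v, 2 ≤ os D v → Psi D - Psi (stb D v) < Real.logb 2 (os D v)

/-- the consequences of `Term` used later -/
structure Good {V : Type} (D : Subgroup (Equiv.Perm V)) : Prop where
  t0 : ∀ v, 2 ≤ os D v → T 0 < os D v
  t1 : ∀ (j : ℕ) (v : V) (R : Set V), 2 ≤ os D v → os D v ≤ T j ^ 3 →
    (∀ σ ∈ stb D v, ∀ x ∈ R, σ x ∈ R) → R.ncard ≤ T j → (∀ x ∈ R, T j < os D x) → R.ncard < be j
  t3 : ∀ (j : ℕ) (v x : V) (P : Set V), 2 ≤ os D v → os D v ≤ T j ^ 3 → T j < os D x →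
    P ⊆ orb D x → (∀ σ ∈ stb D v, ∀ y ∈ P, σ y ∈ P) → P.ncard < be j ∨ (orb D x \ P).ncard < be j

/-- numerical facts on the potential -/
def S_PSI : Prop :=
  (∀ N, Monotone (psi N)) ∧ (∀ N s, 0 ≤ psi N s) ∧ (∀ N s, psi N s ≤ 19) ∧
  (∀ N s r, r ≤ 1 → 1 < s → 16 ≤ psi N s - psi N r) ∧
  (∀ N j s r, j < N → r ≤ T j → T j < s → (1 / 2 : ℝ) ^ j ≤ psi N s - psi N r) ∧
  (∀ N j p q : ℕ, j < N → T j ≤ p → T j ≤ q →
    3 * 2 ^ (j + 4) ≤ ((p : ℝ) + q) * psi N (p + q) - p * psi N p - q * psi N q)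

/-- the greedy choice of the named vertices -/
def S_GREEDY : Prop :=
  ∀ (V : Type) [Fintype V] (C : Subgroup (Equiv.Perm V)), ∃ D ≤ C, Term D ∧ Closed C D ∧
    Nat.card C ≤ 2 ^ (19 * Fintype.card V) * Nat.card D

def S_TERM : Prop :=
  ∀ (V : Type) [Fintype V] (D : Subgroup (Equiv.Perm V)), Term D → Good D

/-! ### The difference graph -/

/-- more than half of the pairs between the orbits of `u` and `x` are edges -/
def base {V : Type} (G : SimpleGraph V) (D : Subgroup (Equiv.Perm V)) (u x : V) : Prop :=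
  os D x < 2 * ({y | y ∈ orb D x ∧ G.Adj u y} : Set V).ncard

/-- the pairs at which the graph differs from the base -/
def Dif {V : Type} (G : SimpleGraph V) (D : Subgroup (Equiv.Perm V)) (u x : V) : Prop :=
  u ≠ x ∧ ¬ (G.Adj u x ↔ base G D u x)

/-- the component of `u` in the difference graph -/
def comp {V : Type} (G : SimpleGraph V) (D : Subgroup (Equiv.Perm V)) (u : V) : Set V :=
  {x | Relation.ReflTransGen (Dif G D) u x}

def S_BASE : Prop :=
  ∀ (V : Type) [Fintype V] (G : SimpleGraph V) (D : Subgroup (Equiv.Perm V)), D ≤ aut G →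
    (∀ u x, base G D u x → base G D x u) ∧
    (∀ σ ∈ D, ∀ τ ∈ D, ∀ u x, base G D (σ u) (τ x) ↔ base G D u x) ∧
    (∀ u x, Dif G D u x → Dif G D x u) ∧
    (∀ σ ∈ D, ∀ u x, Dif G D (σ u) (σ x) ↔ Dif G D u x) ∧
    (∀ u x, (∀ δ ∈ D, δ u = u) → ¬ Dif G D u x)

/-- the components are small compared with the orbits of their points -/
def S_COMP : Prop :=
  ∀ (V : Type) [Fintype V] (G : SimpleGraph V) (D : Subgroup (Equiv.Perm V)), D ≤ aut G →
    Good D → ∀ u, 2 ≤ os D u →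
      (comp G D u).ncard * ((comp G D u).ncard + 3) < os D u

/-! ### Presentations -/

/-- `Z`: the fixed vertices, `A`: one copy of every block, `E`: the graph on `Z` and `A`,
`F`: the adjacency between different copies, `m`: the numbers of copies -/
structure Pres (Z A : Type) where
  E : SimpleGraph (Z ⊕ A)
  F : A → A → Prop
  symF : ∀ a b, F a b → F b a
  m : A → ℕ

/-- adjacency in the expansion -/
def xadj {Z A : Type} (S : Pres Z A) : Z ⊕ A × ℕ → Z ⊕ A × ℕ → Prop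
  | .inl z, .inl w => S.E.Adj (.inl z) (.inl w)
  | .inl z, .inr q => S.E.Adj (.inl z) (.inr q.1)
  | .inr q, .inl w => S.E.Adj (.inr q.1) (.inl w)
  | .inr q, .inr r => (q.2 = r.2 → S.E.Adj (.inr q.1) (.inr r.1)) ∧ (q.2 ≠ r.2 → S.F q.1 r.1)

/-- the expansion with infinitely many copies -/
def xgr {Z A : Type} (S : Pres Z A) : SimpleGraph (Z ⊕ A × ℕ) where
  Adj := xadj S
  symm := ⟨by
    rintro (z | q) (w | r) h
    · exact S.E.adj_symm h
    · exact S.E.adj_symm h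
    · exact S.E.adj_symm h
    · exact ⟨fun h1 => S.E.adj_symm (h.1 h1.symm), fun h1 => S.symF _ _ (h.2 (Ne.symm h1))⟩⟩
  loopless := ⟨by
    rintro (z | q) h
    · exact SimpleGraph.irrefl S.E h
    · exact SimpleGraph.irrefl S.E (h.1 rfl)⟩

/-- the vertices with copy number smaller than `k` -/
def VS {Z A : Type} (k : A → ℕ) : Set (Z ⊕ A × ℕ) := {p | ∀ q, p = Sum.inr q → q.2 < k q.1}

/-- the expansion with `k a` copies of `a` -/
def X {Z A : Type} (S : Pres Z A) (k : A → ℕ) : SimpleGraph (VS (Z := Z) k) :=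
  (xgr S).induce (VS k)

/-- the expansion with three copies -/
abbrev H3 {Z A : Type} (S : Pres Z A) : SimpleGraph (VS (Z := Z) (fun _ : A => 3)) :=
  X S (fun _ => 3)

/-- an isomorphism of presentations -/
def IsoP {Z A Z' A' : Type} (S : Pres Z A) (S' : Pres Z' A') (α : Z ≃ Z') (β : A ≃ A') : Prop :=
  (∀ x y, S'.E.Adj (Equiv.sumCongr α β x) (Equiv.sumCongr α β y) ↔ S.E.Adj x y) ∧
  (∀ a b, S'.F (β a) (β b) ↔ S.F a b) ∧ (∀ a, S'.m (β a) = S.m a)

/-- the automorphisms of a presentation -/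
def Th {Z A : Type} (S : Pres Z A) : Set (Equiv.Perm Z × Equiv.Perm A) :=
  {p | IsoP S S p.1 p.2}

/-- those which fix `Z` pointwise -/
def ThZ {Z A : Type} (S : Pres Z A) : Set (Equiv.Perm A) := {β | IsoP S S 1 β}

/-- the number of the copy, plus one; `0` on `Z` -/
def kap {Z A : Type} : Z ⊕ A × ℕ → ℕ
  | .inl _ => 0
  | .inr q => q.2 + 1

/-- the multiplicity; `0` on `Z` -/
def mul {Z A : Type} (S : Pres Z A) : Z ⊕ A × ℕ → ℕ
  | .inl _ => 0
  | .inr q => S.m q.1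

/-- a layout: `As` is the union of one component from every `D`-orbit of components of non-fixed
vertices, `m a` the number of translates of the component of `a`, and the `δ a i`, `i < m a`, are
elements of `D` leading to these translates -/
structure Lay {V : Type} (G : SimpleGraph V) (D : Subgroup (Equiv.Perm V)) (As : Set V)
    (m : V → ℕ) (δ : V → ℕ → Equiv.Perm V) : Prop where
  nf : ∀ a ∈ As, 2 ≤ os D a
  cl : ∀ a ∈ As, ∀ b ∈ comp G D a, b ∈ As ∧ m b = m a ∧ ∀ i, δ b i = δ a i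
  mem : ∀ a ∈ As, ∀ i, δ a i ∈ D
  zero : ∀ a ∈ As, δ a 0 = 1
  inj : ∀ a ∈ As, ∀ b ∈ As, ∀ i < m a, ∀ j < m b,
    δ a i a ∈ comp G D (δ b j b) → i = j ∧ b ∈ comp G D a
  surj : ∀ u, 2 ≤ os D u → ∃ a ∈ As, ∃ i < m a, δ a i a = u
  one : ∀ a ∈ As, ∀ b ∈ As, ∀ σ ∈ D, σ a ∈ comp G D b → b ∈ comp G D a
  big : ∀ a ∈ As, 3 ≤ m a ∧ (comp G D a).ncard ≤ m a

/-- existence of a layout -/
def S_LAY : Prop :=
  ∀ (V : Type) [Fintype V] (G : SimpleGraph V) (D : Subgroup (Equiv.Perm V)), D ≤ aut G →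
    (∀ u, 2 ≤ os D u → (comp G D u).ncard * ((comp G D u).ncard + 3) < os D u) →
    ∃ As m δ, Lay G D As m δ

/-- the presentation of a layout -/
def LP {V : Type} (G : SimpleGraph V) (D : Subgroup (Equiv.Perm V)) (As : Set V) (m : V → ℕ)
    (h : ∀ u x, base G D u x → base G D x u) : Pres {z : V // ∀ σ ∈ D, σ z = z} As where
  E := G.comap (Sum.elim Subtype.val Subtype.val)
  F := fun a b => base G D a b
  symF := fun a b => h a b
  m := fun a => m a

/-- the presentation of a layout describes the graph -/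
def S_ISO : Prop :=
  ∀ (V : Type) [Fintype V] (G : SimpleGraph V) (D : Subgroup (Equiv.Perm V)), D ≤ aut G →
    ∀ (As : Set V) (m : V → ℕ) (δ : V → ℕ → Equiv.Perm V), Lay G D As m δ →
    ∀ h : (∀ u x, base G D u x → base G D x u),
    ∃ e : X (LP G D As m h) (LP G D As m h).m ≃g G,
      (∀ w z, w.1 = Sum.inl z → e w = z.1) ∧ (∀ w a i, w.1 = Sum.inr (a, i) → e w = δ a.1 i a.1)

/-- existence of a presentation -/
def S_PRES : Prop :=
  ∀ (V : Type) [Fintype V] (G : SimpleGraph V) (D : Subgroup (Equiv.Perm V)), D ≤ aut G →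
    Closed (aut G) D →
    (∀ u, 2 ≤ os D u → (comp G D u).ncard * ((comp G D u).ncard + 3) < os D u) →
    ∃ (Z A B : Type) (_ : Fintype Z) (_ : Fintype A) (S : Pres Z A) (fam : A → B),
      (∀ a, 3 ≤ S.m a) ∧ (∀ a, ({b | fam b = fam a} : Set A).ncard ≤ S.m a) ∧
      (∀ β ∈ ThZ S, ∀ a, fam (β a) = fam a) ∧
      Nonempty (G ≃g X S S.m) ∧
      (Th S).ncard * Nat.card D ≤ Nat.card (aut G) * (ThZ S).ncard

/-- permutations preserving small families -/
def S_THZ : Prop :=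
  ∀ (A B : Type) [Fintype A] (m : A → ℕ) (fam : A → B) (Q : Set (Equiv.Perm A)),
    (∀ a, ({b | fam b = fam a} : Set A).ncard ≤ m a) → (∀ β ∈ Q, ∀ a, fam (β a) = fam a) →
    Q.ncard ≤ 2 ^ (∑ a, m a)

/-- the structure theorem -/
def S_STR : Prop :=
  ∀ (V : Type) [Fintype V] (G : SimpleGraph V), ∃ (Z A : Type) (_ : Fintype Z) (_ : Fintype A)
    (S : Pres Z A), (∀ a, 3 ≤ S.m a) ∧ Nonempty (G ≃g X S S.m) ∧
      (Th S).ncard * (ThZ S).ncard ^ 2 ≤ 2 ^ (22 * Fintype.card V)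

/-! ### Rigidity of the expansion with three copies, and counting -/

def S_KEY : Prop :=
  ∀ (Z A Z' A' : Type) (S : Pres Z A) (S' : Pres Z' A') (e : H3 S ≃g H3 S'),
    (∀ w, kap (e w).1 = kap w.1 ∧ mul S' (e w).1 = mul S w.1) →
    ∃ (α : Z ≃ Z') (ν : ℕ → (A ≃ A')),
      (∀ z, ∀ h : Sum.inl z ∈ VS (fun _ : A => 3), (e ⟨Sum.inl z, h⟩).1 = Sum.inl (α z)) ∧
      (∀ i < 3, ∀ a, ∀ h : Sum.inr (a, i) ∈ VS (Z := Z) (fun _ : A => 3),
        (e ⟨Sum.inr (a, i), h⟩).1 = Sum.inr (ν i a, i)) ∧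
      (∀ i < 3, IsoP S S' α (ν i))

def S_EXP : Prop :=
  ∀ (Z A Z' A' : Type) (S : Pres Z A) (S' : Pres Z' A') (α : Z ≃ Z') (β : A ≃ A'),
    IsoP S S' α β → Nonempty (X S S.m ≃g X S' S'.m)

def S_DCOUNT : Prop :=
  ∀ (W : Type) [Fintype W] (M : ℕ),
    ({f | (∀ w, (f w).1 ≤ 3) ∧ ∑ w, (f w).2 ≤ M} : Set (W → ℕ × ℕ)).Finite ∧
    ({f | (∀ w, (f w).1 ≤ 3) ∧ ∑ w, (f w).2 ≤ M} : Set (W → ℕ × ℕ)).ncard ≤
      4 ^ Fintype.card W * 2 ^ (Fintype.card W + M)

def S_AUTH : Prop :=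
  ∀ (Z A : Type) [Fintype Z] [Fintype A] (S : Pres Z A), (∀ a, 3 ≤ S.m a) →
    Nat.card (aut (H3 S)) ≤
      2 ^ (3 * (Fintype.card Z + 3 * Fintype.card A) + 3 * ∑ a, S.m a) *
        ((Th S).ncard * (ThZ S).ncard ^ 2)

def S_REPS : Prop :=
  ∀ (n : ℕ) (Q : SimpleGraph (Fin n) → Prop) (K : ℕ),
    (∀ G G' : SimpleGraph (Fin n), Nonempty (G ≃g G') → Q G → Q G') →
    ∃ R : Finset (SimpleGraph (Fin n)), (∀ G ∈ R, Q G) ∧
      (∀ G, Q G → Nat.card (aut G) ≤ K → ∃ H ∈ R, Nonempty (G ≃g H)) ∧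
      R.card * Nat.factorial n ≤ K * ({G | Q G} : Set (SimpleGraph (Fin n))).ncard

end Pool.Agent.W79.ST
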