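import Pool.Agent.W79.ST.Basic

/-!
Project ST: isomorphic presentations have isomorphic expansions; permutations of small families.
-/

set_option autoImplicit false

namespace Pool.Agent.W79.ST

open scoped Classical

theorem exp_main : S_EXP := by
  intro Z A Z' A' S S' α β ⟨hE, hF, hm⟩
  have hF' : ∀ a b, S'.F (β a) (β b) ↔ S.F a b := hF
  let f : Z ⊕ A × ℕ ≃ Z' ⊕ A' × ℕ := Equiv.sumCongr α (Equiv.prodCongr β (Equiv.refl ℕ))
  have hf : ∀ w, w ∈ VS (Z := Z) S.m ↔ f w ∈ VS (Z := Z') S'.m := by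
    rintro (z | ⟨a, i⟩)
    · constructor
      · intro _ q hq
        cases hq
      · intro _ q hq
        cases hq
    · constructor
      · intro h q hq
        have h1 : (β a, i) = q := Sum.inr_injective hq
        rw [← h1]
        show i < S'.m (β a)
        rw [hm]
        exact h (a, i) rfl
      · intro h q hq
        have h1 : (a, i) = q := Sum.inr_injective hq
        rw [← h1]
        show i < S.m a
        rw [← hm]
        exact h (β a, i) rfl
  have hadj : ∀ u v, (xgr S').Adj (f u) (f v) ↔ (xgr S).Adj u v := by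
    rintro (z | ⟨a, i⟩) (w | ⟨b, j⟩)
    · exact hE (Sum.inl z) (Sum.inl w)
    · exact hE (Sum.inl z) (Sum.inr b)
    · exact hE (Sum.inr a) (Sum.inl w)
    · show ((i = j → S'.E.Adj (.inr (β a)) (.inr (β b))) ∧ (i ≠ j → S'.F (β a) (β b))) ↔
        ((i = j → S.E.Adj (.inr a) (.inr b)) ∧ (i ≠ j → S.F a b))
      have h1 : S'.E.Adj (.inr (β a)) (.inr (β b)) ↔ S.E.Adj (.inr a) (.inr b) :=
        hE (Sum.inr a) (Sum.inr b)
      rw [h1, hF']
  exact ⟨⟨f.subtypeEquiv hf, fun {u v} => hadj u.1 v.1⟩⟩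

theorem thz_main : S_THZ := by
  intro A B _ m fam Q hm hQ
  have h1 : Q.ncard ≤ (Set.univ.pi (fun a => {b | fam b = fam a}) : Set (A → A)).ncard := by
    refine Set.ncard_le_ncard_of_injOn (fun β => (β : A → A)) ?_ ?_ (Set.toFinite _)
    · intro β hβ a _
      exact hQ β hβ a
    · intro β _ γ _ h
      exact Equiv.coe_fn_injective h
  have h2 : (Set.univ.pi (fun a => {b | fam b = fam a}) : Set (A → A)).ncard =
      ∏ a, ({b | fam b = fam a} : Set A).ncard := by
    have h3 : (Set.univ.pi (fun a => {b | fam b = fam a}) : Set (A → A)) =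
        (Fintype.piFinset (fun a => Finset.univ.filter (fun b => fam b = fam a)) : Finset (A → A)) := by
      ext g
      simp [Set.mem_pi]
    rw [h3, Set.ncard_coe_finset, Fintype.card_piFinset]
    refine Finset.prod_congr rfl (fun a _ => ?_)
    rw [← Set.ncard_coe_finset]
    congr 1
    ext b
    simp
  calc Q.ncard ≤ _ := h1
    _ = ∏ a, ({b | fam b = fam a} : Set A).ncard := h2
    _ ≤ ∏ a, 2 ^ (m a) := Finset.prod_le_prod' (fun a _ => (hm a).trans (Nat.lt_two_pow_self).le)
    _ = 2 ^ (∑ a, m a) := Finset.prod_pow_eq_pow_sum _ _ _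

end Pool.Agent.W79.ST
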