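import Pool.Agent.W79.ST.Str

/-!
Project ST: the theorem from its parts.
-/

set_option autoImplicit false

namespace Pool.Agent.W79.ST

open scoped Classical

/-- isomorphic graphs have automorphism groups of the same size -/
theorem card_aut_iso {V W : Type} {G : SimpleGraph V} {G' : SimpleGraph W} (e : G ≃g G') :
    Nat.card (aut G) = Nat.card (aut G') := by
  refine Nat.card_congr ⟨fun σ => ⟨(e.toEquiv.symm.trans σ.1).trans e.toEquiv, ?_⟩,
    fun σ => ⟨(e.toEquiv.trans σ.1).trans e.toEquiv.symm, ?_⟩, ?_, ?_⟩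
  · intro u v
    have h1 : ∀ x y, G'.Adj (e x) (e y) ↔ G.Adj x y := fun x y => e.map_rel_iff
    have h2 : ∀ x y, G.Adj (e.symm x) (e.symm y) ↔ G'.Adj x y := fun x y => e.symm.map_rel_iff
    exact (h1 _ _).trans ((σ.2 _ _).trans (h2 _ _))
  · intro u v
    have h1 : ∀ x y, G'.Adj (e x) (e y) ↔ G.Adj x y := fun x y => e.map_rel_iff
    have h2 : ∀ x y, G.Adj (e.symm x) (e.symm y) ↔ G'.Adj x y := fun x y => e.symm.map_rel_iff
    exact (h2 _ _).trans ((σ.2 _ _).trans (h1 _ _))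
  · intro σ
    apply Subtype.ext
    ext x
    show e.toEquiv.symm (e.toEquiv (σ.1 (e.toEquiv.symm (e.toEquiv x)))) = σ.1 x
    rw [Equiv.symm_apply_apply, Equiv.symm_apply_apply]
  · intro σ
    apply Subtype.ext
    ext x
    show e.toEquiv (e.toEquiv.symm (σ.1 (e.toEquiv (e.toEquiv.symm x)))) = σ.1 x
    rw [Equiv.apply_symm_apply, Equiv.apply_symm_apply]

/-- the sum of the multiplicities over the expansion with three copies -/
theorem sum_mul {Z A : Type} [Fintype Z] [Fintype A] (S : Pres Z A) {k : ℕ}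
    (e : Fin k ≃ VS (Z := Z) (fun _ : A => 3)) :
    ∑ w, mul S (e w).1 = 3 * ∑ a, S.m a := by
  let e2 : VS (Z := Z) (fun _ : A => 3) ≃ Z ⊕ (A × Fin 3) := {
    toFun := fun w => match w with
      | ⟨Sum.inl z, _⟩ => Sum.inl z
      | ⟨Sum.inr q, h⟩ => Sum.inr ⟨q.1, ⟨q.2, h q rfl⟩⟩
    invFun := fun w => match w with
      | Sum.inl z => ⟨Sum.inl z, fun q h => by cases h⟩
      | Sum.inr (a, i) => ⟨Sum.inr (a, i.1), fun q h => by cases h; exact i.2⟩
    left_inv := by rintro ⟨z | q, h⟩ <;> rfl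
    right_inv := by rintro (z | ⟨a, i⟩) <;> rfl }
  have h1 : ∑ w, mul S (e w).1 = ∑ x : Z ⊕ (A × Fin 3), mul S (e2.symm x).1 := by
    refine Fintype.sum_equiv (e.trans e2) _ _ (fun w => ?_)
    simp
  have h2 : ∀ x : Z ⊕ (A × Fin 3), mul S (e2.symm x).1 = Sum.elim (fun _ => 0) (fun q => S.m q.1) x := by
    rintro (z | ⟨a, i⟩) <;> rfl
  rw [h1, Finset.sum_congr rfl (fun x _ => h2 x), Fintype.sum_sum_type]
  simp only [Sum.elim_inl, Sum.elim_inr, Finset.sum_const_zero, zero_add]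
  rw [Fintype.sum_prod_type, Finset.mul_sum]
  refine Finset.sum_congr rfl (fun a _ => ?_)
  simp

/-- the first three copies among all the copies -/
def incl {Z A : Type} (m : A → ℕ) (h : ∀ a, 3 ≤ m a) :
    VS (Z := Z) (fun _ : A => 3) ↪ VS (Z := Z) m :=
  ⟨fun w => ⟨w.1, fun q hq => (w.2 q hq).trans_le (h q.1)⟩, fun a b h => by
    apply Subtype.ext
    exact congrArg (fun x => x.1) h⟩

/-- a graph on `Fin n` realises the decorated graph `H` -/
def Rl (P : (n : ℕ) → SimpleGraph (Fin n) → Prop) (n k : ℕ) (H : SimpleGraph (Fin k))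
    (f : Fin k → ℕ × ℕ) (G : SimpleGraph (Fin n)) : Prop :=
  P n G ∧ ∃ (Z A : Type) (S : Pres Z A) (e : H ≃g H3 S),
    (∀ w, f w = (kap (e w).1, mul S (e w).1)) ∧ Nonempty (G ≃g X S S.m)

/-- a chosen graph realising the decorated graph `H` -/
noncomputable def pick (P : (n : ℕ) → SimpleGraph (Fin n) → Prop) (n k : ℕ)
    (H : SimpleGraph (Fin k)) (f : Fin k → ℕ × ℕ) : SimpleGraph (Fin n) :=
  if h : ∃ G, Rl P n k H f G then h.choose else ⊥

theorem pick_spec (P : (n : ℕ) → SimpleGraph (Fin n) → Prop) (n k : ℕ)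
    (H : SimpleGraph (Fin k)) (f : Fin k → ℕ × ℕ) (h : ∃ G, Rl P n k H f G) :
    Rl P n k H f (pick P n k H f) := by
  unfold pick
  rw [dif_pos h]
  exact h.choose_spec

/-- two graphs realising the same decorated graph are isomorphic -/
theorem Rl_unique (h2 : S_KEY) (h3 : S_EXP) (P : (n : ℕ) → SimpleGraph (Fin n) → Prop) (n k : ℕ)
    (H : SimpleGraph (Fin k)) (f : Fin k → ℕ × ℕ) (G G' : SimpleGraph (Fin n))
    (hG : Rl P n k H f G) (hG' : Rl P n k H f G') : Nonempty (G ≃g G') := by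
  obtain ⟨_, Z, A, S, e, hf, ⟨g⟩⟩ := hG
  obtain ⟨_, Z', A', S', e', hf', ⟨g'⟩⟩ := hG'
  obtain ⟨α, ν, _, _, hν⟩ := h2 Z A Z' A' S S' (e.symm.trans e') (by
    intro w
    have h4 := (hf (e.symm w)).symm.trans (hf' (e.symm w))
    have h5 : e (e.symm w) = w := e.apply_symm_apply w
    rw [h5] at h4
    have h6 := Prod.ext_iff.1 h4
    exact ⟨h6.1.symm, h6.2.symm⟩)
  obtain ⟨g2⟩ := h3 Z A Z' A' S S' α (ν 0) (hν 0 (by norm_num))
  exact ⟨(g.trans g2).trans g'.symm⟩

theorem final (h1 : S_STR) (h2 : S_KEY) (h3 : S_EXP) (h4 : S_DCOUNT) (h5 : S_AUTH)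
    (h6 : S_REPS) (P : (n : ℕ) → SimpleGraph (Fin n) → Prop)
    (hP : ∀ (n m : ℕ) (f : Fin m ↪ Fin n) (G : SimpleGraph (Fin n)), P n G → P m (G.comap f))
    (hs : ∃ c : ℕ, ∀ n : ℕ, {G : SimpleGraph (Fin n) | P n G}.ncard ≤ Nat.factorial n * c ^ n) :
    ∃ c : ℕ, ∀ n : ℕ, ∃ S : Finset (SimpleGraph (Fin n)),
      S.card ≤ c ^ n ∧ ∀ G : SimpleGraph (Fin n), P n G → ∃ H ∈ S, Nonempty (G ≃g H) := by
  obtain ⟨c, hc⟩ := hs
  have hinv : ∀ k, ∀ G G' : SimpleGraph (Fin k), Nonempty (G ≃g G') → P k G → P k G' := by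
    rintro k G G' ⟨e⟩ h
    have h7 : G' = G.comap e.symm.toEquiv.toEmbedding := by
      ext u v
      exact (e.symm.map_rel_iff (a := u) (b := v)).symm
    rw [h7]
    exact hP k k _ G h
  have hR : ∀ n k : ℕ, ∃ R : Finset (SimpleGraph (Fin k)), (∀ G ∈ R, P k G) ∧
      (∀ G, P k G → Nat.card (aut G) ≤ 2 ^ (28 * n) → ∃ H ∈ R, Nonempty (G ≃g H)) ∧
      R.card * Nat.factorial k ≤ 2 ^ (28 * n) * ({G | P k G} : Set (SimpleGraph (Fin k))).ncard :=
    fun n k => h6 k (P k) (2 ^ (28 * n)) (hinv k)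
  choose R hR1 hR2 hR3 using hR
  have hRc : ∀ n k, (R n k).card ≤ 2 ^ (28 * n) * c ^ k := by
    intro n k
    have h7 : (R n k).card * Nat.factorial k ≤ (2 ^ (28 * n) * c ^ k) * Nat.factorial k := by
      calc _ ≤ _ := hR3 n k
        _ ≤ 2 ^ (28 * n) * (Nat.factorial k * c ^ k) := Nat.mul_le_mul_left _ (hc k)
        _ = _ := by ring
    exact Nat.le_of_mul_le_mul_right h7 (Nat.factorial_pos k)
  -- the decorations
  have hD : ∀ n k : ℕ, ∃ Dk : Finset (Fin k → ℕ × ℕ), Dk.card ≤ 4 ^ k * 2 ^ (k + 3 * n) ∧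
      ∀ f : Fin k → ℕ × ℕ, (∀ w, (f w).1 ≤ 3) → ∑ w, (f w).2 ≤ 3 * n → f ∈ Dk := by
    intro n k
    obtain ⟨hf, hcard⟩ := h4 (Fin k) (3 * n)
    refine ⟨hf.toFinset, ?_, fun f h7 h8 => hf.mem_toFinset.2 ⟨h7, h8⟩⟩
    rw [← Set.ncard_eq_toFinset_card _ hf]
    simpa using hcard
  choose Dk hDk1 hDk2 using hD
  refine ⟨2 ^ 35 * (c + 1), fun n => ?_⟩
  refine ⟨(Finset.range (n + 1)).biUnion (fun k =>
    ((R n k) ×ˢ (Dk n k)).image (fun t => pick P n k t.1 t.2)), ?_, ?_⟩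
  · -- the count
    have h7 : ∀ k ∈ Finset.range (n + 1),
        (((R n k) ×ˢ (Dk n k)).image (fun t => pick P n k t.1 t.2)).card
          ≤ 2 ^ (34 * n) * (c + 1) ^ n := by
      intro k hk
      have hk' : k ≤ n := Nat.lt_succ_iff.1 (Finset.mem_range.1 hk)
      calc _ ≤ ((R n k) ×ˢ (Dk n k)).card := Finset.card_image_le
        _ = (R n k).card * (Dk n k).card := Finset.card_product _ _
        _ ≤ (2 ^ (28 * n) * c ^ k) * (4 ^ k * 2 ^ (k + 3 * n)) :=
            Nat.mul_le_mul (hRc n k) (hDk1 n k)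
        _ ≤ (2 ^ (28 * n) * (c + 1) ^ n) * (4 ^ n * 2 ^ (n + 3 * n)) := by
            have h9 : c ^ k ≤ (c + 1) ^ n := by
              calc c ^ k ≤ (c + 1) ^ k := Nat.pow_le_pow_left (Nat.le_succ c) k
                _ ≤ (c + 1) ^ n := Nat.pow_le_pow_right (Nat.succ_pos c) hk'
            have h10 : 4 ^ k ≤ 4 ^ n := Nat.pow_le_pow_right (by norm_num) hk'
            have h11 : 2 ^ (k + 3 * n) ≤ 2 ^ (n + 3 * n) :=
              Nat.pow_le_pow_right (by norm_num) (by omega)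
            exact Nat.mul_le_mul (Nat.mul_le_mul_left _ h9) (Nat.mul_le_mul h10 h11)
        _ = 2 ^ (34 * n) * (c + 1) ^ n := by
            have : (4 : ℕ) ^ n = 2 ^ (2 * n) := by rw [pow_mul]; norm_num
            rw [this]
            have h8 : 2 ^ (34 * n) = 2 ^ (28 * n) * (2 ^ (2 * n) * 2 ^ (n + 3 * n)) := by
              rw [← pow_add, ← pow_add]
              congr 1
              ring
            rw [h8]
            ring
    calc _ ≤ ∑ k ∈ Finset.range (n + 1),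
          (((R n k) ×ˢ (Dk n k)).image (fun t => pick P n k t.1 t.2)).card := Finset.card_biUnion_le
      _ ≤ ∑ k ∈ Finset.range (n + 1), 2 ^ (34 * n) * (c + 1) ^ n := Finset.sum_le_sum h7
      _ = (n + 1) * (2 ^ (34 * n) * (c + 1) ^ n) := by simp
      _ ≤ 2 ^ n * (2 ^ (34 * n) * (c + 1) ^ n) := by
          gcongr
          exact Nat.lt_two_pow_self
      _ = (2 ^ 35 * (c + 1)) ^ n := by
          rw [mul_pow, ← pow_mul, ← mul_assoc, ← pow_add]
          congr 2
          ring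
  · -- the cover
    intro G hG
    obtain ⟨Z, A, _, _, S, hm, ⟨e0⟩, hth⟩ := h1 (Fin n) G
    have hn : n = Fintype.card Z + ∑ a, S.m a := by
      have h7 := Nat.card_congr e0.toEquiv
      rw [card_X, Nat.card_eq_fintype_card, Fintype.card_fin] at h7
      exact h7
    obtain ⟨k, hk⟩ : ∃ k, k = Fintype.card Z + 3 * Fintype.card A := ⟨_, rfl⟩
    have hkn : k ≤ n := by
      have h7 : ∑ a : A, 3 ≤ ∑ a, S.m a := Finset.sum_le_sum (fun a _ => hm a)
      rw [Finset.sum_const, Finset.card_univ, smul_eq_mul] at h7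
      omega
    have hcW : Nat.card (VS (Z := Z) (fun _ : A => 3)) = k := by
      rw [card_X, hk, Finset.sum_const, Finset.card_univ, smul_eq_mul, mul_comm]
    have hfin : Finite (VS (Z := Z) (fun _ : A => 3)) :=
      Finite.of_injective (fun w => e0.symm (incl S.m hm w))
        (fun a b h => (incl S.m hm).injective (e0.symm.injective h))
    obtain ⟨ε⟩ : Nonempty (Fin k ≃ VS (Z := Z) (fun _ : A => 3)) :=
      ⟨(finCongr hcW.symm).trans (Finite.equivFin _).symm⟩
    have hH : P k ((H3 S).comap ε) := by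
      have h7 : (H3 S).comap ε = G.comap ((ε.toEmbedding.trans (incl S.m hm)).trans
          e0.symm.toEquiv.toEmbedding) := by
        ext u v
        exact (e0.symm.map_rel_iff (a := incl S.m hm (ε u)) (b := incl S.m hm (ε v))).symm
      rw [h7]
      exact hP n k _ G hG
    let e1 : (H3 S).comap ε ≃g H3 S := SimpleGraph.Iso.comap ε (H3 S)
    have hcard : Nat.card (aut ((H3 S).comap ε)) ≤ 2 ^ (28 * n) := by
      rw [card_aut_iso e1]
      calc _ ≤ _ := h5 Z A S hm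
        _ ≤ 2 ^ (3 * n + 3 * n) * 2 ^ (22 * n) := by
            refine Nat.mul_le_mul (Nat.pow_le_pow_right (by norm_num) ?_) ?_
            · omega
            · simpa using hth
        _ = 2 ^ (28 * n) := by
            rw [← pow_add]
            congr 1
            ring
    obtain ⟨H, hHR, ⟨e2⟩⟩ := hR2 n k _ hH hcard
    let e : H ≃g H3 S := e2.symm.trans e1
    have hf : (fun w => (kap (e w).1, mul S (e w).1)) ∈ Dk n k := by
      refine hDk2 n k _ ?_ ?_
      · intro w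
        show kap (e w).1 ≤ 3
        rcases h8 : e w with ⟨z | q, h9⟩
        · exact Nat.zero_le _
        · exact h9 q rfl
      · show ∑ w, mul S (e w).1 ≤ 3 * n
        have h8 := sum_mul S e.toEquiv
        have h9 : ∑ w, mul S (e w).1 = 3 * ∑ a, S.m a := h8
        omega
    have hRl : Rl P n k H (fun w => (kap (e w).1, mul S (e w).1)) G :=
      ⟨hG, Z, A, S, e, fun w => rfl, ⟨e0⟩⟩
    have hpick := pick_spec P n k H _ ⟨G, hRl⟩
    refine ⟨pick P n k H (fun w => (kap (e w).1, mul S (e w).1)), ?_,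
      Rl_unique h2 h3 P n k H _ _ _ hRl hpick⟩
    refine Finset.mem_biUnion.2 ⟨k, Finset.mem_range.2 (Nat.lt_succ_of_le hkn), ?_⟩
    exact Finset.mem_image.2 ⟨(H, _), Finset.mem_product.2 ⟨hHR, hf⟩, rfl⟩

end Pool.Agent.W79.ST
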