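import Pool.Agent.W79.ST.Basic

/-!
Project ST: the structure theorem from its parts.
-/

set_option autoImplicit false

namespace Pool.Agent.W79.ST

open scoped Classical

/-- the number of vertices of the expansion -/
theorem card_X {Z A : Type} [Fintype Z] [Fintype A] (k : A → ℕ) :
    Nat.card (VS (Z := Z) k) = Fintype.card Z + ∑ a, k a := by
  have e : VS (Z := Z) k ≃ Z ⊕ (Σ a, Fin (k a)) := {
    toFun := fun w => match w with
      | ⟨Sum.inl z, _⟩ => Sum.inl z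
      | ⟨Sum.inr q, h⟩ => Sum.inr ⟨q.1, ⟨q.2, h q rfl⟩⟩
    invFun := fun w => match w with
      | Sum.inl z => ⟨Sum.inl z, fun q h => by cases h⟩
      | Sum.inr ⟨a, i⟩ => ⟨Sum.inr (a, i.1), fun q h => by cases h; exact i.2⟩
    left_inv := by rintro ⟨z | q, h⟩ <;> rfl
    right_inv := by rintro (z | ⟨a, i⟩) <;> rfl }
  rw [Nat.card_congr e, Nat.card_eq_fintype_card, Fintype.card_sum, Fintype.card_sigma]
  simp

theorem str (h1 : S_GREEDY) (h2 : S_TERM) (h3 : S_COMP) (h4 : S_PRES) (h5 : S_THZ) : S_STR := by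
  intro V _ G
  obtain ⟨D, hD, hT, hcl, hc⟩ := h1 V (aut G)
  have hg := h2 V D hT
  have hk := h3 V G D hD hg
  obtain ⟨Z, A, B, _, _, S, fam, hm, hf, hfam, ⟨e⟩, hth⟩ := h4 V G D hD hcl hk
  refine ⟨Z, A, inferInstance, inferInstance, S, hm, ⟨e⟩, ?_⟩
  have h6 : (ThZ S).ncard ≤ 2 ^ (∑ a, S.m a) := h5 A B S.m fam (ThZ S) hf hfam
  have h7 : Fintype.card V = Fintype.card Z + ∑ a, S.m a := by
    rw [← card_X (Z := Z) S.m, ← Nat.card_eq_fintype_card]
    exact Nat.card_congr e.toEquiv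
  have h8 : (ThZ S).ncard ≤ 2 ^ Fintype.card V :=
    h6.trans (Nat.pow_le_pow_right (by norm_num) (by omega))
  have hDpos : 0 < Nat.card D := Nat.card_pos
  have h9 : (Th S).ncard * Nat.card D ≤ (2 ^ (19 * Fintype.card V) * (ThZ S).ncard) * Nat.card D := by
    calc (Th S).ncard * Nat.card D ≤ Nat.card (aut G) * (ThZ S).ncard := hth
      _ ≤ (2 ^ (19 * Fintype.card V) * Nat.card D) * (ThZ S).ncard := Nat.mul_le_mul_right _ hc
      _ = _ := by ring
  have h10 := Nat.le_of_mul_le_mul_right h9 hDpos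
  calc (Th S).ncard * (ThZ S).ncard ^ 2
      ≤ (2 ^ (19 * Fintype.card V) * (ThZ S).ncard) * (ThZ S).ncard ^ 2 := Nat.mul_le_mul_right _ h10
    _ = 2 ^ (19 * Fintype.card V) * (ThZ S).ncard ^ 3 := by ring
    _ ≤ 2 ^ (19 * Fintype.card V) * (2 ^ Fintype.card V) ^ 3 :=
        Nat.mul_le_mul_left _ (Nat.pow_le_pow_left h8 3)
    _ = 2 ^ (22 * Fintype.card V) := by
        rw [← pow_mul, ← pow_add]
        congr 1
        ring

end Pool.Agent.W79.ST
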